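import Mathlib
import Pool.Agent.W203.SP.Stm2

set_option autoImplicit false

/-! Measurability in the parameters (statement `S_NQM` of `Pool.Agent.W203.SP.Stm2`). -/

namespace Pool.Agent.W319.SP

open MeasureTheory Set Complex Filter Metric Pool.Agent.W203.SP
open scoped ENNReal NNReal FourierTransform
open Pool.Agent.H153R4 (E)

theorem aux {k : ℕ} (G : (ℝ × (Fin k → ℝ)) × E k → ℝ≥0∞) (hG : Measurable G) (S : Set ℝ) :
    Measurable fun s : Fin k → ℝ => ∫⁻ t in S, ∫⁻ x, G ((t, s), x) := by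
  have hr : Measurable fun r : ((Fin k → ℝ) × ℝ) × E k => (((r.1.2, r.1.1), r.2) :
      (ℝ × (Fin k → ℝ)) × E k) := by
    fun_prop
  have h3 : Measurable fun r : ((Fin k → ℝ) × ℝ) × E k => G ((r.1.2, r.1.1), r.2) := hG.comp hr
  have h4 : Measurable fun r : (Fin k → ℝ) × ℝ => ∫⁻ x, G ((r.2, r.1), x) :=
    h3.lintegral_prod_right'
  exact h4.lintegral_prod_right'

theorem t_NQM (h : S_MG) : S_NQM := by
  intro k m q S f hf
  exact aux (fun r : (ℝ × (Fin k → ℝ)) × E k => ‖𝓕 (gs m r.1.1 r.1.2 f) r.2‖ₑ ^ q)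
    (((h k m (fun _ => 0) f measurable_const hf).2).enorm.pow_const q) S

end Pool.Agent.W319.SP
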